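import Mathlib

/-!
# Every lattice variety is defined by its symmetric identities

`FL n` is the free lattice on `n` generators, built as lattice words modulo the congruence generated
by the lattice axioms.  A lattice identity is a pair of elements of some `FL n`; it is symmetric if
both sides are fixed by every permutation of the generators.  We prove that a lattice which satisfies
all symmetric identities valid in a lattice variety belongs to that variety.
-/

namespace Pool.Agent.Results.MP_fa43b0_al.SymmetricIdentities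

universe u v

/-- Lattice words in the variables `var 0, …, var (n-1)`. -/
inductive Word (n : ℕ) : Type
  | var : Fin n → Word n
  | sup : Word n → Word n → Word n
  | inf : Word n → Word n → Word n

/-- Equality of words derivable from the lattice axioms. -/
inductive Eqv {n : ℕ} : Word n → Word n → Prop
  | refl (a : Word n) : Eqv a a
  | symm {a b : Word n} : Eqv a b → Eqv b a
  | trans {a b c : Word n} : Eqv a b → Eqv b c → Eqv a c
  | sup_congr {a a' b b' : Word n} : Eqv a a' → Eqv b b' → Eqv (a.sup b) (a'.sup b')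
  | inf_congr {a a' b b' : Word n} : Eqv a a' → Eqv b b' → Eqv (a.inf b) (a'.inf b')
  | sup_comm (a b : Word n) : Eqv (a.sup b) (b.sup a)
  | sup_assoc (a b c : Word n) : Eqv ((a.sup b).sup c) (a.sup (b.sup c))
  | inf_comm (a b : Word n) : Eqv (a.inf b) (b.inf a)
  | inf_assoc (a b c : Word n) : Eqv ((a.inf b).inf c) (a.inf (b.inf c))
  | sup_inf_self (a b : Word n) : Eqv (a.sup (a.inf b)) a
  | inf_sup_self (a b : Word n) : Eqv (a.inf (a.sup b)) a

/-- The lattice congruence of words as a setoid. -/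
def wordSetoid (n : ℕ) : Setoid (Word n) where
  r := Eqv
  iseqv := ⟨Eqv.refl, Eqv.symm, Eqv.trans⟩

/-- The free lattice on `n` generators: its elements are the `n`-ary lattice terms. -/
def FL (n : ℕ) : Type := Quotient (wordSetoid n)

namespace FL

variable {n : ℕ}

/-- The class of a word in the free lattice. -/
def mk (w : Word n) : FL n := Quotient.mk (wordSetoid n) w

/-- The `i`-th generator of the free lattice. -/
def x (i : Fin n) : FL n := mk (Word.var i)

/-- The join of the free lattice. -/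
def join (s t : FL n) : FL n :=
  Quotient.map₂ Word.sup (fun _ _ h _ _ h' => Eqv.sup_congr h h') s t

/-- The meet of the free lattice. -/
def meet (s t : FL n) : FL n :=
  Quotient.map₂ Word.inf (fun _ _ h _ _ h' => Eqv.inf_congr h h') s t

/-- The free lattice is a lattice, with the join and meet induced from words. -/
instance : Lattice (FL n) :=
  @Lattice.mk' (FL n) ⟨join⟩ ⟨meet⟩
    (by rintro ⟨a⟩ ⟨b⟩; exact Quotient.sound (Eqv.sup_comm a b))
    (by rintro ⟨a⟩ ⟨b⟩ ⟨c⟩; exact Quotient.sound (Eqv.sup_assoc a b c))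
    (by rintro ⟨a⟩ ⟨b⟩; exact Quotient.sound (Eqv.inf_comm a b))
    (by rintro ⟨a⟩ ⟨b⟩ ⟨c⟩; exact Quotient.sound (Eqv.inf_assoc a b c))
    (by rintro ⟨a⟩ ⟨b⟩; exact Quotient.sound (Eqv.sup_inf_self a b))
    (by rintro ⟨a⟩ ⟨b⟩; exact Quotient.sound (Eqv.inf_sup_self a b))

theorem mk_sup (a b : Word n) : mk (a.sup b) = mk a ⊔ mk b := rfl

theorem mk_inf (a b : Word n) : mk (a.inf b) = mk a ⊓ mk b := rfl

end FL

/-- The value of a word in a lattice. -/
def Word.eval {n : ℕ} {L : Type u} [Lattice L] (a : Fin n → L) : Word n → L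
  | .var i => a i
  | .sup s t => s.eval a ⊔ t.eval a
  | .inf s t => s.eval a ⊓ t.eval a

theorem Eqv.eval_eq {n : ℕ} {L : Type u} [Lattice L] (a : Fin n → L) {s t : Word n}
    (h : Eqv s t) : s.eval a = t.eval a := by
  induction h with
  | refl _ => rfl
  | symm _ ih => exact ih.symm
  | trans _ _ ih ih' => exact ih.trans ih'
  | sup_congr _ _ ih ih' => simp only [Word.eval, ih, ih']
  | inf_congr _ _ ih ih' => simp only [Word.eval, ih, ih']
  | sup_comm _ _ => simp only [Word.eval]; exact _root_.sup_comm _ _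
  | sup_assoc _ _ _ => simp only [Word.eval]; exact _root_.sup_assoc _ _ _
  | inf_comm _ _ => simp only [Word.eval]; exact _root_.inf_comm _ _
  | inf_assoc _ _ _ => simp only [Word.eval]; exact _root_.inf_assoc _ _ _
  | sup_inf_self _ _ => simp only [Word.eval]; exact _root_.sup_inf_self
  | inf_sup_self _ _ => simp only [Word.eval]; exact _root_.inf_sup_self

namespace FL

variable {n m : ℕ} {L : Type u} [Lattice L]

/-- The value `t(a)` of an `n`-ary lattice term `t` at a tuple `a` of elements of a lattice. -/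
def eval (a : Fin n → L) : FL n → L :=
  Quotient.lift (Word.eval a) (fun _ _ h => Eqv.eval_eq a h)

theorem eval_mk (a : Fin n → L) (w : Word n) : eval a (mk w) = w.eval a := rfl

@[simp] theorem eval_x (a : Fin n → L) (i : Fin n) : eval a (x i) = a i := rfl

@[simp] theorem eval_sup (a : Fin n → L) (s t : FL n) :
    eval a (s ⊔ t) = eval a s ⊔ eval a t := by
  induction s using Quotient.ind
  induction t using Quotient.ind
  rfl

@[simp] theorem eval_inf (a : Fin n → L) (s t : FL n) :
    eval a (s ⊓ t) = eval a s ⊓ eval a t := by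
  induction s using Quotient.ind
  induction t using Quotient.ind
  rfl

/-- Induction principle for the free lattice. -/
theorem induct {P : FL n → Prop} (hx : ∀ i, P (x i)) (hs : ∀ s t, P s → P t → P (s ⊔ t))
    (hi : ∀ s t, P s → P t → P (s ⊓ t)) (t : FL n) : P t := by
  induction t using Quotient.ind with
  | _ w =>
    induction w with
    | var i => exact hx i
    | sup s t ih ih' => exact hs _ _ ih ih'
    | inf s t ih ih' => exact hi _ _ ih ih'

theorem eval_eval (b : Fin m → L) (c : Fin n → FL m) (t : FL n) :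
    eval b (eval c t) = eval (fun i => eval b (c i)) t := by
  induction t using induct with
  | hx i => simp
  | hs s t ih ih' => simp [ih, ih']
  | hi s t ih ih' => simp [ih, ih']

/-- `perm σ t` is the term obtained from `t` by replacing each `x i` with `x (σ i)`. -/
def perm (σ : Equiv.Perm (Fin n)) (t : FL n) : FL n := eval (fun i => x (σ i)) t

theorem eval_perm (b : Fin n → L) (σ : Equiv.Perm (Fin n)) (t : FL n) :
    eval b (perm σ t) = eval (fun i => b (σ i)) t := by
  simp [perm, eval_eval]

theorem perm_perm (τ σ : Equiv.Perm (Fin n)) (t : FL n) :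
    perm τ (perm σ t) = perm (τ * σ) t := by
  simp [perm, eval_eval]

@[simp] theorem eval_sup' {ι : Type*} (a : Fin n → L) (s : Finset ι) (hs : s.Nonempty)
    (f : ι → FL n) : eval a (s.sup' hs f) = s.sup' hs (fun i => eval a (f i)) :=
  Finset.apply_sup'_eq_sup'_comp hs (eval a) (fun s t => eval_sup a s t)

@[simp] theorem eval_inf' {ι : Type*} (a : Fin n → L) (s : Finset ι) (hs : s.Nonempty)
    (f : ι → FL n) : eval a (s.inf' hs f) = s.inf' hs (fun i => eval a (f i)) :=
  Finset.apply_inf'_eq_inf'_comp hs (eval a) (fun s t => eval_inf a s t)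

theorem eval_mono {a b : Fin n → L} (h : ∀ i, a i ≤ b i) (t : FL n) : eval a t ≤ eval b t := by
  induction t using induct with
  | hx i => simpa using h i
  | hs s t ih ih' => simpa using ⟨le_sup_of_le_left ih, le_sup_of_le_right ih'⟩
  | hi s t ih ih' => simpa using ⟨inf_le_of_left_le ih, inf_le_of_right_le ih'⟩

end FL

/-- A lattice identity `lhs ≈ rhs` in `n` variables. -/
structure Identity where
  /-- number of variables -/
  n : ℕ
  /-- left-hand side -/
  lhs : FL n
  /-- right-hand side -/
  rhs : FL n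

/-- The lattice `L` satisfies the identity `e`. -/
def Sat (L : Type u) [Lattice L] (e : Identity) : Prop :=
  ∀ a : Fin e.n → L, FL.eval a e.lhs = FL.eval a e.rhs

/-- A term is symmetric if it is fixed by all permutations of the generators. -/
def IsSymmetric {n : ℕ} (t : FL n) : Prop := ∀ σ : Equiv.Perm (Fin n), FL.perm σ t = t

/-- An identity is symmetric if both of its sides are. -/
def Identity.Symmetric (e : Identity) : Prop := IsSymmetric e.lhs ∧ IsSymmetric e.rhs

/-- Membership in the lattice variety defined by a set `E` of identities. -/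
def InVariety (E : Set Identity) (L : Type u) [Lattice L] : Prop := ∀ e ∈ E, Sat L e

/-- The identity `e` holds in the variety defined by `E`. -/
def HoldsIn (E : Set Identity) (e : Identity) : Prop :=
  ∀ (K : Type u) [Lattice K], InVariety E K → Sat K e

/-- Membership in the symmetric part of the variety defined by `E`: the lattice satisfies every
symmetric identity that holds in the variety. -/
def InSymmetricPart (E : Set Identity) (L : Type u) [Lattice L] : Prop :=
  ∀ e : Identity, e.Symmetric → HoldsIn.{u} E e → Sat L e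

/-! ### Symmetrisation by joins -/

namespace FL

variable {N : ℕ}

/-- The join of all the terms obtained from `t` by permuting the variables. -/
def symJoin (t : FL N) : FL N :=
  (Finset.univ : Finset (Equiv.Perm (Fin N))).sup' Finset.univ_nonempty (fun σ => perm σ t)

theorem eval_symJoin {M : Type u} [Lattice M] (b : Fin N → M) (t : FL N) :
    eval b (symJoin t) = (Finset.univ : Finset (Equiv.Perm (Fin N))).sup' Finset.univ_nonempty
      (fun σ => eval (fun i => b (σ i)) t) := by
  rw [symJoin, eval_sup']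
  simp only [eval_perm]

theorem isSymmetric_symJoin (t : FL N) : IsSymmetric (symJoin t) := by
  have key : ∀ τ : Equiv.Perm (Fin N), perm τ (symJoin t) ≤ symJoin t := by
    intro τ
    rw [perm, eval_symJoin]
    refine Finset.sup'_le _ _ fun σ _ => ?_
    have h1 : eval (fun i => x (τ (σ i))) t = perm (τ * σ) t := rfl
    rw [h1]
    exact Finset.le_sup' (fun σ => perm σ t) (Finset.mem_univ (τ * σ))
  have mono : ∀ (τ : Equiv.Perm (Fin N)) (s s' : FL N), s ≤ s' → perm τ s ≤ perm τ s' := by
    intro τ s s' h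
    have h1 : perm τ (s ⊔ s') = perm τ s ⊔ perm τ s' := eval_sup _ _ _
    rw [sup_eq_right.2 h] at h1
    exact sup_eq_right.1 h1.symm
  have one : ∀ s : FL N, perm 1 s = s := by
    intro s
    induction s using induct with
    | hx i => rfl
    | hs s t ih ih' =>
      have h1 : perm 1 (s ⊔ t) = perm 1 s ⊔ perm 1 t := eval_sup _ _ _
      rw [h1, ih, ih']
    | hi s t ih ih' =>
      have h1 : perm 1 (s ⊓ t) = perm 1 s ⊓ perm 1 t := eval_inf _ _ _
      rw [h1, ih, ih']
  intro τ
  refine le_antisymm (key τ) ?_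
  have h2 := mono τ _ _ (key τ⁻¹)
  rwa [perm_perm, mul_inv_cancel, one] at h2

end FL

/-! ### The key lemmas -/

section Key

variable {N : ℕ} {M : Type u} [Lattice M]

/-- Either passing from `b` to the permuted tuple preserves the property `value ≤ κ`, or some term
drops from a value `≰ κ` to a value `≤ κ`. -/
theorem dichotomy (b : Fin N → M) (κ : M) (σ : Equiv.Perm (Fin N)) :
    (∀ u : FL N, FL.eval b u ≤ κ → FL.eval (fun i => b (σ i)) u ≤ κ) ∨
      (∃ u : FL N, ¬ FL.eval b u ≤ κ ∧ FL.eval (fun i => b (σ i)) u ≤ κ) := by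
  by_contra hcon
  push Not at hcon
  obtain ⟨⟨u, hu1, hu2⟩, hall⟩ := hcon
  have step : ∀ j : ℕ, ¬ FL.eval (fun i => b ((σ ^ (j + 1)) i)) u ≤ κ := by
    intro j
    induction j with
    | zero => simpa using hu2
    | succ j ih =>
      have h1 := hall (FL.perm (σ ^ (j + 1)) u) (by rw [FL.eval_perm]; exact ih)
      rw [FL.eval_perm] at h1
      have h2 : (fun i => b ((σ ^ (j + 1 + 1)) i)) = fun i => b (σ ((σ ^ (j + 1)) i)) := by
        funext i
        rw [pow_succ' σ (j + 1), Equiv.Perm.mul_apply]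
      rw [h2]
      exact h1
  obtain ⟨r, hr⟩ : ∃ r, orderOf σ = r + 1 :=
    Nat.exists_eq_succ_of_ne_zero (orderOf_pos σ).ne'
  have h3 := step r
  rw [← hr, pow_orderOf_eq_one] at h3
  exact h3 (by simpa using hu1)

/-- If more than half of the positions carry `κ`, then every permutation keeps one of them. -/
theorem exists_common (n : ℕ) (σ : Equiv.Perm (Fin (n + (n + 1)))) :
    ∃ i j : Fin (n + 1), σ (Fin.natAdd n i) = Fin.natAdd n j := by
  by_contra hcon
  push Not at hcon
  have h1 : ∀ i : Fin (n + 1), ∃ j : Fin n, σ (Fin.natAdd n i) = Fin.castAdd (n + 1) j := by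
    intro i
    refine Fin.addCases (motive := fun z => σ (Fin.natAdd n i) = z →
      ∃ j : Fin n, σ (Fin.natAdd n i) = Fin.castAdd (n + 1) j) ?_ ?_ (σ (Fin.natAdd n i)) rfl
    · intro j hj
      exact ⟨j, hj⟩
    · intro j hj
      exact absurd hj (hcon i j)
  choose g hg using h1
  have hinj : Function.Injective g := by
    intro i i' h
    have h2 : σ (Fin.natAdd n i) = σ (Fin.natAdd n i') := by rw [hg, hg, h]
    have h3 := σ.injective h2
    exact Fin.natAdd_injective _ _ h3
  have := Fintype.card_le_of_injective g hinj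
  simp at this

/-- The main construction: from a failing pair `P`, `Q` and an element `κ` above `P(a)` and maximal
without being above `Q(a)`, it produces a failing pair of symmetric terms. -/
theorem main_construction {n : ℕ} (a : Fin n → M) (P Q : FL n) (κ : M)
    (hP : FL.eval a P ≤ κ) (hQ : ¬ FL.eval a Q ≤ κ)
    (hκ : ∀ z : M, ¬ z ≤ κ → FL.eval a Q ≤ z ⊔ κ) :
    ∃ (N : ℕ) (f : Fin n → Fin N) (h : FL N) (b : Fin N → M),
      FL.eval b (FL.symJoin (FL.eval (fun i => FL.x (f i)) P ⊓ h)) ≤ κ ∧
        ¬ FL.eval b (FL.symJoin (FL.eval (fun i => FL.x (f i)) Q ⊓ h)) ≤ κ := by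
  classical
  set N := n + (n + 1) with hN
  let f : Fin n → Fin N := Fin.castAdd (n + 1)
  let b : Fin N → M := Fin.append a (fun _ => κ)
  have hbf : (fun i => b (f i)) = a := by
    funext i
    simp [b, f]
  have hbκ : ∀ i : Fin (n + 1), b (Fin.natAdd n i) = κ := by
    intro i
    simp [b]
  let P' : FL N := FL.eval (fun i => FL.x (f i)) P
  let Q' : FL N := FL.eval (fun i => FL.x (f i)) Q
  have hP' : FL.eval b P' = FL.eval a P := by
    simp only [P', FL.eval_eval, FL.eval_x]
    rw [hbf]
  have hQ' : FL.eval b Q' = FL.eval a Q := by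
    simp only [Q', FL.eval_eval, FL.eval_x]
    rw [hbf]
  have hg : ∀ σ : Equiv.Perm (Fin N), ∃ g : FL N, FL.eval a Q ≤ FL.eval b g ∧
      ((∀ u : FL N, FL.eval b u ≤ κ → FL.eval (fun i => b (σ i)) u ≤ κ) ∨
        FL.eval (fun i => b (σ i)) g ≤ κ) := by
    intro σ
    rcases dichotomy b κ σ with h | ⟨u, hu1, hu2⟩
    · exact ⟨Q', hQ'.ge, Or.inl h⟩
    · obtain ⟨i, j, hij⟩ := exists_common n σ
      refine ⟨u ⊔ FL.x (Fin.natAdd n i), ?_, Or.inr ?_⟩
      · rw [FL.eval_sup, FL.eval_x, hbκ]
        exact hκ _ hu1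
      · rw [FL.eval_sup, FL.eval_x, hij, hbκ]
        exact sup_le hu2 le_rfl
  choose g hg1 hg2 using hg
  let h : FL N := (Finset.univ : Finset (Equiv.Perm (Fin N))).inf' Finset.univ_nonempty g
  have hh1 : FL.eval a Q ≤ FL.eval b h := by
    simp only [h, FL.eval_inf']
    exact Finset.le_inf' _ _ fun σ _ => hg1 σ
  have hh2 : ∀ σ : Equiv.Perm (Fin N),
      FL.eval (fun i => b (σ i)) h ≤ FL.eval (fun i => b (σ i)) (g σ) := by
    intro σ
    simp only [h, FL.eval_inf']
    exact Finset.inf'_le _ (Finset.mem_univ σ)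
  refine ⟨N, f, h, b, ?_, ?_⟩
  · rw [FL.eval_symJoin]
    refine Finset.sup'_le _ _ fun σ _ => ?_
    rw [FL.eval_inf]
    rcases hg2 σ with h1 | h1
    · exact inf_le_of_left_le (h1 P' (hP'.le.trans hP))
    · exact inf_le_of_right_le ((hh2 σ).trans h1)
  · intro hcon
    rw [FL.eval_symJoin] at hcon
    have h1 := (Finset.le_sup' (fun σ : Equiv.Perm (Fin N) =>
      FL.eval (fun i => b (σ i)) (Q' ⊓ h)) (Finset.mem_univ 1)).trans hcon
    simp only [Equiv.Perm.coe_one, id_eq, FL.eval_inf] at h1
    exact hQ ((le_inf hQ'.ge hh1).trans h1)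

end Key

/-! ### The ideal lattice -/

section Ideals

open Order

variable {n : ℕ} {L : Type u} [Lattice L]

theorem mem_eval_ideal (I : Fin n → Ideal L) (t : FL n) (y : L) :
    y ∈ FL.eval I t ↔ ∃ i : Fin n → L, (∀ j, i j ∈ I j) ∧ y ≤ FL.eval i t := by
  classical
  induction t using FL.induct generalizing y with
  | hx k =>
    rw [FL.eval_x]
    constructor
    · intro hy
      refine ⟨Function.update (fun j => (I j).nonempty.some) k y, ?_, ?_⟩
      · intro j
        by_cases hj : j = k
        · subst hj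
          simpa using hy
        · simpa [Function.update_of_ne hj] using (I j).nonempty.some_mem
      · simp
    · rintro ⟨i, hi, hy⟩
      exact (I k).lower hy (hi k)
  | hs s t ih ih' =>
    rw [FL.eval_sup, Ideal.mem_sup]
    constructor
    · rintro ⟨u, hu, v, hv, hy⟩
      obtain ⟨i, hi, hu'⟩ := (ih u).1 hu
      obtain ⟨i', hi', hv'⟩ := (ih' v).1 hv
      refine ⟨fun j => i j ⊔ i' j, fun j => Ideal.sup_mem (hi j) (hi' j), ?_⟩
      rw [FL.eval_sup]
      refine hy.trans (sup_le_sup ?_ ?_)
      · exact hu'.trans (FL.eval_mono (fun j => le_sup_left) s)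
      · exact hv'.trans (FL.eval_mono (fun j => le_sup_right) t)
    · rintro ⟨i, hi, hy⟩
      rw [FL.eval_sup] at hy
      exact ⟨_, (ih _).2 ⟨i, hi, le_rfl⟩, _, (ih' _).2 ⟨i, hi, le_rfl⟩, hy⟩
  | hi s t ih ih' =>
    have hmem : ∀ (A B : Ideal L) (z : L), z ∈ A ⊓ B ↔ z ∈ A ∧ z ∈ B := fun A B z => Iff.rfl
    rw [FL.eval_inf, hmem]
    constructor
    · rintro ⟨hu, hv⟩
      obtain ⟨i, hi, hu'⟩ := (ih y).1 hu
      obtain ⟨i', hi', hv'⟩ := (ih' y).1 hv
      refine ⟨fun j => i j ⊔ i' j, fun j => Ideal.sup_mem (hi j) (hi' j), ?_⟩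
      rw [FL.eval_inf]
      refine le_inf ?_ ?_
      · exact hu'.trans (FL.eval_mono (fun j => le_sup_left) s)
      · exact hv'.trans (FL.eval_mono (fun j => le_sup_right) t)
    · rintro ⟨i, hi, hy⟩
      rw [FL.eval_inf] at hy
      exact ⟨(ih _).2 ⟨i, hi, hy.trans inf_le_left⟩, (ih' _).2 ⟨i, hi, hy.trans inf_le_right⟩⟩

theorem mem_eval_principal (a : Fin n → L) (t : FL n) (y : L) :
    y ∈ FL.eval (fun j => Ideal.principal (a j)) t ↔ y ≤ FL.eval a t := by
  rw [mem_eval_ideal]
  constructor
  · rintro ⟨i, hi, hy⟩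
    exact hy.trans (FL.eval_mono (fun j => Ideal.mem_principal.1 (hi j)) t)
  · intro hy
    exact ⟨a, fun j => Ideal.mem_principal.2 le_rfl, hy⟩

/-- The ideal lattice satisfies every identity of the lattice. -/
theorem sat_ideal {e : Identity} (h : Sat L e) : Sat (Ideal L) e := by
  intro I
  refine SetLike.ext fun y => ?_
  rw [mem_eval_ideal, mem_eval_ideal]
  constructor
  · rintro ⟨i, hi, hy⟩
    exact ⟨i, hi, hy.trans (h i).le⟩
  · rintro ⟨i, hi, hy⟩
    exact ⟨i, hi, hy.trans (h i).ge⟩

/-- An ideal that is maximal among those containing `p` and not `q`. -/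
theorem exists_max_ideal (p q : L) (h : ¬ q ≤ p) :
    ∃ κ : Ideal L, p ∈ κ ∧ q ∉ κ ∧ ∀ z : Ideal L, ¬ z ≤ κ → q ∈ z ⊔ κ := by
  obtain ⟨κ, -, hκ⟩ := zorn_le_nonempty₀ {I : Ideal L | p ∈ I ∧ q ∉ I} (by
    intro c hc hchain y hy
    have hid : IsIdeal (⋃₀ ((fun I : Ideal L => (I : Set L)) '' c)) := by
      refine isIdeal_sUnion_of_isChain ?_ ?_ ⟨_, ⟨y, hy, rfl⟩⟩
      · rintro _ ⟨I, -, rfl⟩
        exact I.isIdeal
      · rintro _ ⟨I, hI, rfl⟩ _ ⟨J, hJ, rfl⟩ hne
        exact hchain hI hJ (fun hIJ => hne (by rw [hIJ]))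
    refine ⟨hid.toIdeal, ⟨?_, ?_⟩, ?_⟩
    · exact ⟨_, ⟨y, hy, rfl⟩, (hc hy).1⟩
    · rintro ⟨_, ⟨I, hI, rfl⟩, hq⟩
      exact (hc hI).2 hq
    · intro z hz w hw
      exact ⟨_, ⟨z, hz, rfl⟩, hw⟩) (Ideal.principal p)
    ⟨Ideal.mem_principal.2 le_rfl, fun hq => h (Ideal.mem_principal.1 hq)⟩
  refine ⟨κ, hκ.prop.1, hκ.prop.2, fun z hz => ?_⟩
  by_contra hq
  have h1 : z ⊔ κ ≤ κ := hκ.2 ⟨(le_sup_right : κ ≤ z ⊔ κ) hκ.prop.1, hq⟩ le_sup_right
  exact hz (le_sup_left.trans h1)

end Ideals

/-- From an identity failing in `L` we get a symmetric consequence of it that fails in `L`. -/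
theorem exists_symmetric_consequence {L : Type u} [Lattice L] (e : Identity) (he : ¬ Sat L e) :
    ∃ e' : Identity, e'.Symmetric ∧ (∀ (K : Type v) [Lattice K], Sat K e → Sat K e') ∧
      ¬ Sat L e' := by
  simp only [Sat, not_forall] at he
  obtain ⟨a, ha⟩ := he
  let P : FL e.n := e.lhs ⊓ e.rhs
  let Q : FL e.n := e.lhs ⊔ e.rhs
  have hPQ : ¬ FL.eval a Q ≤ FL.eval a P := by
    intro hle
    simp only [P, Q, FL.eval_sup, FL.eval_inf] at hle
    apply ha
    refine le_antisymm ?_ ?_
    · exact le_sup_left.trans (hle.trans inf_le_right)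
    · exact le_sup_right.trans (hle.trans inf_le_left)
  obtain ⟨κ, hp, hq, hmax⟩ := exists_max_ideal _ _ hPQ
  let a' : Fin e.n → Order.Ideal L := fun j => Order.Ideal.principal (a j)
  have hP' : FL.eval a' P ≤ κ := by
    intro y hy
    exact κ.lower ((mem_eval_principal a P y).1 hy) hp
  have hQ' : ¬ FL.eval a' Q ≤ κ := by
    intro hle
    exact hq (hle ((mem_eval_principal a Q _).2 le_rfl))
  have hκ' : ∀ z : Order.Ideal L, ¬ z ≤ κ → FL.eval a' Q ≤ z ⊔ κ := by
    intro z hz y hy
    exact (z ⊔ κ).lower ((mem_eval_principal a Q y).1 hy) (hmax z hz)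
  obtain ⟨N, f, h, b, h1, h2⟩ := main_construction a' P Q κ hP' hQ' hκ'
  refine ⟨⟨N, FL.symJoin (FL.eval (fun i => FL.x (f i)) P ⊓ h),
    FL.symJoin (FL.eval (fun i => FL.x (f i)) Q ⊓ h)⟩,
    ⟨FL.isSymmetric_symJoin _, FL.isSymmetric_symJoin _⟩, ?_, ?_⟩
  · intro K _ hK c
    simp only [FL.eval_symJoin]
    refine Finset.sup'_congr _ rfl fun σ _ => ?_
    simp only [FL.eval_inf, FL.eval_eval, FL.eval_x]
    congr 1
    have h3 := hK (fun i => c (σ (f i)))
    simp only [P, Q, FL.eval_inf, FL.eval_sup, h3, inf_idem, sup_idem]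
  · intro hL
    have h3 := sat_ideal hL b
    simp only at h3
    rw [h3] at h1
    exact h2 h1

/-- **Every lattice variety is defined by its symmetric identities.** -/
theorem result :
    (∀ (E : Set Identity) (L : Type u) [Lattice L], InSymmetricPart E L ↔ InVariety E L) ∧
      (∀ (L : Type u) [Lattice L] (e : Identity), ¬ Sat L e →
        ∃ e' : Identity, e'.Symmetric ∧ (∀ (K : Type v) [Lattice K], Sat K e → Sat K e') ∧
          ¬ Sat L e') := by
  refine ⟨fun E L _ => ⟨fun hL e he => ?_, fun hL e _ he => he L hL⟩,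
    fun L _ e he => exists_symmetric_consequence e he⟩
  by_contra hcon
  obtain ⟨e', hs, hcons, hfail⟩ := exists_symmetric_consequence.{u, u} e hcon
  exact hfail (hL e' hs (fun K _ hK => hcons K (hK e he)))

end Pool.Agent.Results.MP_fa43b0_al.SymmetricIdentities
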